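import Pool.Agent.R347.EM.Fam
import Pool.Agent.R347.LC.Gen

set_option autoImplicit false

/-!
# `e`, Euler's constant and the Gompertz function over fields generated by Liouville numbers

Let `q_0, q_1, …` be integers `≥ 2`. A real number `x` is *approximable* if for some `h` and every `κ` there
are, for all large `k`, integers `u` and `1 ≤ v ≤ q_k ^ h` with `|x - u / v| ≤ q_k ^ (-κ)`. The approximable
numbers form a field. Every Liouville number `ξ` is approximable for some sequence, so that `ℚ(ξ)` is contained in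
such a field; for `q_k = 2 ^ ((k + 2)!)` the field has transcendence degree the cardinality of the continuum.

For a positive rational number `x` let `δ(x) = ∫_0^∞ e^(-s) / (x + s) ds` (`δ(1)` is Gompertz's constant).

**Theorem.** Let `L` be a field of approximable numbers, for example `ℚ(ξ)` for any Liouville number `ξ`.

(1) Let `y_1, …, y_r` be real numbers and `P` a set of positive rational numbers `x` for which
`γ + log x` is algebraic over `L(e, y_1, …, y_r)`. For every finite `S ⊆ P` the field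
`L(e, y_1, …, y_r, δ(x) : x ∈ S)` has transcendence degree at least `|S| + 1` over `L`.

(2) Let `G` be the multiplicative group generated by positive rational numbers `b_1, …, b_m`. At most
`m + 1` of the numbers `γ, log b_1, …, log b_m` and `δ(x)` (`x ∈ G`) are algebraic over `L(e)`.

For `r = 0` and `S` empty (1) says that `e` is transcendental over `L`; for `r = 0`, `S = {1}` it says that `δ(1)` is
transcendental over `L(e)` if `γ` is algebraic over `L(e)`. So neither `e` nor both of `γ, δ(1)` can be expressed by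
algebraic functions of a Liouville number.

The proof makes the proof of the theorem of Siegel and Shidlovskii quantitative (`Pool/Agent/R347/EM/Meas.lean`, on
the basis of the modules `Pool/Agent/R352/E` of this repository), and approximates the elements of `L`.
-/

namespace Pool.Agent.Results.MP_725b61_nt.EulerOverLiouvilleFields

open Set

/-- For some `h` and every `κ`, for all large `k`, there are integers `u` and `1 ≤ v ≤ (q k) ^ h` with
`|x - u / v| ≤ (q k) ^ (-κ)`. -/
def Approximable (q : ℕ → ℕ) (x : ℝ) : Prop :=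
  ∃ h : ℕ, ∀ κ : ℕ, ∃ k₀ : ℕ, ∀ k ≥ k₀, ∃ (u : ℤ) (v : ℕ), 1 ≤ v ∧ v ≤ q k ^ h ∧
    |x - (u : ℝ) / v| ≤ (((q k : ℕ) : ℝ) ^ κ)⁻¹

/-- The sequence `2 ^ ((k + 2)!)`. -/
def q₀ (k : ℕ) : ℕ := 2 ^ (k + 2).factorial

/-- `δ(x) = ∫_0^∞ e^(-s) / (x + s) ds` -/
noncomputable def delta (x : ℚ) : ℝ := ∫ s in Ioi (0 : ℝ), Real.exp (-s) / ((x : ℝ) + s)

/-- the multiplicative group generated by `b_1, …, b_m` -/
def group {m : ℕ} (b : Fin m → ℚ) : Set ℚ := {x | ∃ n : Fin m → ℤ, x = ∏ i, b i ^ n i}

/-- the numbers `γ, log b_1, …, log b_m` -/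
noncomputable def logs {m : ℕ} (b : Fin m → ℚ) : Fin (m + 1) → ℝ :=
  Fin.cons Real.eulerMascheroniConstant fun i => Real.log (b i)

/-- the set of indices of those of the numbers `y_1, …, y_r` and `δ(x)` (`x ∈ P`) which are
algebraic over `L(e)` -/
def algebraicIndices (L : IntermediateField ℚ ℝ) {r : ℕ} (y : Fin r → ℝ) (P : Set ℚ) : Set (Fin r ⊕ ℚ) :=
  {i | Sum.elim (fun j => IsAlgebraic (IntermediateField.adjoin L {Real.exp 1}) (y j))
    (fun x => x ∈ P ∧ IsAlgebraic (IntermediateField.adjoin L {Real.exp 1}) (delta x)) i}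

/-- the statements (1) and (2) for the field `L` -/
def Good (L : IntermediateField ℚ ℝ) : Prop :=
  (∀ (r : ℕ) (y : Fin r → ℝ) (P : Set ℚ),
    (∀ x ∈ P, 0 < x ∧ IsAlgebraic (IntermediateField.adjoin L ({Real.exp 1} ∪ range y))
      (Real.eulerMascheroniConstant + Real.log x)) →
    ∀ S : Finset ℚ, (∀ x ∈ S, x ∈ P) →
      ((S.card + 1 : ℕ) : Cardinal) ≤ Algebra.trdeg L (IntermediateField.adjoin L
        ({Real.exp 1} ∪ range y ∪ delta '' (S : Set ℚ)))) ∧
  ∀ (m : ℕ) (b : Fin m → ℚ), (∀ i, 0 < b i) →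
    (algebraicIndices L (logs b) (group b)).encard ≤ ((m + 1 : ℕ) : ℕ∞)

theorem main {q : ℕ → ℕ} (hq : ∀ k, 2 ≤ q k) {L : IntermediateField ℚ ℝ} (hL : ∀ x ∈ L, Approximable q x)
    {r : ℕ} (y : Fin r → ℝ) (P : Set ℚ)
    (hP : ∀ x ∈ P, 0 < x ∧ IsAlgebraic (IntermediateField.adjoin L ({Real.exp 1} ∪ range y))
      (Real.eulerMascheroniConstant + Real.log x)) :
    (algebraicIndices L y P).encard ≤ (r : ℕ∞) := by
  classical
  refine Pool.Agent.R352.E.encard_le_of_finset _ _ fun t ht => ?_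
  let f : Fin r ⊕ ℚ → Fin 0 ⊕ Fin r ⊕ (Fin 1 × ℚ) := fun i => Sum.inr (Sum.map id (fun x => (0, x)) i)
  have hf : Function.Injective f := by
    intro i j h
    simp only [f, Sum.inr.injEq] at h
    refine Function.Injective.sumMap Function.injective_id ?_ h
    intro a b hab
    exact (Prod.mk.inj hab).2
  have h := Pool.Agent.R347.EM.count_oneL hq hL y (t.map ⟨f, hf⟩) ?_ ?_
  · rw [Finset.card_map] at h
    omega
  · intro i hi
    obtain ⟨j, hj, rfl⟩ := Finset.mem_map.1 hi
    have h1 := ht hj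
    cases j with
    | inl j => exact Pool.Agent.R347.EM.mem_cl.2 h1
    | inr x =>
      have h2 := hP x h1.1
      have h3 : (0 : ℝ) < x := by exact_mod_cast h2.1
      have h4 := Pool.Agent.R352.E.dl_one h3
      have h5 : Pool.Agent.R352.E.gval 1 (Fin.elim0 : Fin 0 → ℝ) y (f (Sum.inr x)) = Pool.Agent.R352.E.dl 1 x := by
        simp [f, Pool.Agent.R352.E.gval]
      rw [Function.Embedding.coeFn_mk, h5, h4]
      exact Pool.Agent.R347.EM.mem_cl.2 h1.2
  · intro p hp
    obtain ⟨j, hj, hjp⟩ := Finset.mem_map.1 hp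
    cases j with
    | inl j => simp [f] at hjp
    | inr x =>
      have h0 : x = p.2 := by
        have h6 : ((0 : Fin 1), x) = p := by
          simpa [f] using hjp
        rw [← h6]
      subst h0
      have h2 := hP p.2 (ht hj).1
      exact ⟨h2.1, Pool.Agent.R347.EM.mem_cl.2 h2.2⟩

theorem group_pos {m : ℕ} {b : Fin m → ℚ} (hb : ∀ i, 0 < b i) {x : ℚ} (hx : x ∈ group b) : 0 < x := by
  obtain ⟨n, rfl⟩ := hx
  exact Finset.prod_pos fun i _ => zpow_pos (hb i) _

theorem group_log (L : IntermediateField ℚ ℝ) {m : ℕ} {b : Fin m → ℚ} (hb : ∀ i, 0 < b i) {x : ℚ} (hx : x ∈ group b) :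
    IsAlgebraic (IntermediateField.adjoin L ({Real.exp 1} ∪ range (logs b)))
      (Real.eulerMascheroniConstant + Real.log x) := by
  obtain ⟨n, rfl⟩ := hx
  have h1 : Real.log ((∏ i, b i ^ n i : ℚ) : ℝ) = ∑ i, (n i : ℝ) * Real.log (b i) := by
    push_cast
    rw [Real.log_prod]
    · refine Finset.sum_congr rfl fun i _ => ?_
      rw [Real.log_zpow]
    · intro i _
      have : (b i : ℝ) ≠ 0 := by exact_mod_cast (hb i).ne'
      exact zpow_ne_zero _ this
  refine Pool.Agent.R347.EM.mem_cl.1 ?_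
  rw [h1]
  have h2 : ∀ i, logs b i ∈ Pool.Agent.R352.E.clF ((L : Set ℝ) ∪ ({Real.exp 1} ∪ range (logs b))) := fun i =>
    Pool.Agent.R352.E.subset_clF _ (Or.inr (Or.inr ⟨i, rfl⟩))
  refine Subfield.add_mem _ (h2 0) (Subfield.sum_mem _ fun i _ => Subfield.mul_mem _ (intCast_mem _ _) ?_)
  exact h2 i.succ

theorem good_of {q : ℕ → ℕ} (hq : ∀ k, 2 ≤ q k) {L : IntermediateField ℚ ℝ} (hL : ∀ x ∈ L, Approximable q x) :
    Good L := by
  refine ⟨fun r y P hP S hS => ?_, fun m b hb => ?_⟩
  · exact Pool.Agent.R347.EM.trdeg_oneL hq hL y S fun x hx =>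
      ⟨(hP x (hS x hx)).1, Pool.Agent.R347.EM.mem_cl.2 (hP x (hS x hx)).2⟩
  · exact main hq hL (logs b) (group b) fun x hx => ⟨group_pos hb hx, group_log L hb hx⟩

/-- **Main result.** -/
theorem result :
    -- the approximable numbers form a field
    (∀ q : ℕ → ℕ, (∀ k, 2 ≤ q k) → ∃ L : IntermediateField ℚ ℝ, ∀ x, x ∈ L ↔ Approximable q x) ∧
    -- the transcendence degree of the field for the explicit sequence
    ((∀ k, 2 ≤ q₀ k) ∧ ∀ L : IntermediateField ℚ ℝ, (∀ x, x ∈ L ↔ Approximable q₀ x) →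
      Algebra.trdeg ℚ L = Cardinal.continuum) ∧
    -- the statements over all fields of approximable numbers
    (∀ q : ℕ → ℕ, (∀ k, 2 ≤ q k) → ∀ L : IntermediateField ℚ ℝ, (∀ x ∈ L, Approximable q x) →
      Good L) ∧
    -- in particular over the field `ℚ(ξ)` for a Liouville number `ξ`
    (∀ ξ : ℝ, Liouville ξ → Good (IntermediateField.adjoin ℚ {ξ})) := by
  refine ⟨Pool.Agent.R347.LC.field_ex, ⟨Pool.Agent.R347.LC.two_le_qe,
    Pool.Agent.R347.LC.trdeg_qe⟩, fun q hq L hL => good_of hq hL, fun ξ hξ => ?_⟩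
  obtain ⟨q, hq, h⟩ := Pool.Agent.R347.LC.of_liouville hξ
  exact good_of hq h

end Pool.Agent.Results.MP_725b61_nt.EulerOverLiouvilleFields
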