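import Pool.Agent.HP778.KZ5

/-!
# `1 / π` and the periods of dimension one

Let `𝒫₁` be the space of all linear combinations, with algebraic coefficients, of the absolutely
convergent integrals `∫_σ R(x) dx` of the problem in dimension `n = 1` (with algebraic coefficients
also in `R` and in the inequalities which define `σ ⊆ ℝ`). It is not known whether `1 / π` is in `𝒫₁`.
The number `1 / π` is the member `a = 0` of the family `1 / (π - a)`, `a` algebraic. We show that no
member with nonreal `a` and at most one member with real `a` is in `𝒫₁`. Multiplication with `1 / π`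
leads out of `𝒫₁`: the elements `y` of the space `𝒫₁`, which has infinite dimension, for which `y / π` is
in `𝒫₁` form a space of dimension at most two, and `log α / π` is not in `𝒫₁` for all algebraic `α` for
which `|α| ≠ 1` and `α / |α|` is not a root of unity, for instance `α = 2 + i`. There are similar results
for rational functions of bounded degree in `π`.

The proof. By partial fractions, `𝒫₁` is contained in the space of linear forms in `1` and logarithms
of algebraic numbers (`Pool.Agent.HP778.KZ1` - `KZ3`). This space contains `1` and `π`, and it is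
preserved by complex conjugation. If it contains `u = 1 / (π - a)` then it also contains
`π u = 1 + a u` and the complex conjugates of these numbers. Now the strong six exponentials theorem
(Roy; the smallest case of the hyperplane case of the linear subgroup theorem, starting files
`Pool.Agent.W254.HP`) is applied to the products of `1, π` and `1, u, ū`.
-/

set_option autoImplicit false

namespace Pool.Agent.Results.MP_725b61_nt.InverseOfPi

open Module Polynomial MeasureTheory Pool.Agent.HP778 Pool.Agent.HP778.KZ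
open Pool.Agent.H301R2.SSE (QB mem_QB Lt Lt_mul Lt_one Lt_log)

theorem pi_tr : Transcendental ℚ ((Real.pi : ℝ) : ℂ) :=
  ofReal_transcendental Pool.Agent.H340R2.LW.transcendental_pi

theorem pi_ne : ((Real.pi : ℝ) : ℂ) ≠ 0 := by exact_mod_cast Real.pi_ne_zero

/-- `π` is a one-variable period -/
theorem pi_mem : ((Real.pi : ℝ) : ℂ) ∈ periods1 := by
  have h1 : IsIntegral (((Real.pi / 4 : ℝ)) : ℂ) := by
    have hne : ∀ x : ℝ, aeval (x : ℂ) (1 + X ^ 2 : QB[X]) ≠ 0 := by
      intro x
      rw [map_add, map_one, map_pow, aeval_X]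
      have : (1 + x ^ 2 : ℝ) ≠ 0 := by positivity
      exact_mod_cast this
    have hint : IntervalIntegrable (fun x : ℝ => aeval (x : ℂ) (1 : QB[X]) /
        aeval (x : ℂ) (1 + X ^ 2 : QB[X])) volume 0 1 := by
      apply ContinuousOn.intervalIntegrable
      intro x _
      exact (rat_continuousAt 1 (1 + X ^ 2) (hne x)).continuousWithinAt
    refine ⟨1, 1 + X ^ 2, Set.Ioo 0 1, ?_, semiAlg_Ioo isAlgebraic_zero isAlgebraic_one,
      (intervalIntegrable_iff_integrableOn_Ioo_of_le zero_le_one).mp hint, ?_⟩
    · intro h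
      apply hne 0
      rw [h, map_zero]
    · rw [← integral_Ioc_eq_integral_Ioo, ← intervalIntegral.integral_of_le zero_le_one]
      have h2 : (∫ x in (0 : ℝ)..1, aeval (x : ℂ) (1 : QB[X]) /
          aeval (x : ℂ) (1 + X ^ 2 : QB[X])) =
          ∫ x in (0 : ℝ)..1, ((1 / (1 + x ^ 2) : ℝ) : ℂ) := by
        refine intervalIntegral.integral_congr fun x _ => ?_
        simp only [map_one, map_add, map_pow, aeval_X]
        push_cast
        rfl
      rw [h2, intervalIntegral.integral_ofReal, integral_one_div_one_add_sq, Real.arctan_one,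
        Real.arctan_zero, sub_zero]
  have h4 : ((Real.pi : ℝ) : ℂ) = (4 : QB) • (((Real.pi / 4 : ℝ)) : ℂ) := by
    rw [Algebra.smul_def, map_ofNat]
    push_cast
    ring
  rw [h4]
  exact periods1.smul_mem _ (Submodule.subset_span h1)

theorem indep_log {z : ℂ} (hz : IsAlgebraic ℚ (Complex.exp z)) (hre : z.re ≠ 0)
    (him : Irrational (z.im / Real.pi)) :
    LinearIndependent QB ![(1 : ℂ), z / Real.pi, (starRingEnd ℂ) z / Real.pi] := by
  have h1 : LinearIndependent ℚ ![Real.pi * Complex.I, z, (starRingEnd ℂ) z] := by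
    rw [Fintype.linearIndependent_iff]
    intro g hg
    rw [Fin.sum_univ_three] at hg
    simp only [Matrix.cons_val_zero, Matrix.cons_val_one, Matrix.cons_val, Rat.smul_def] at hg
    have h2 := congrArg Complex.re hg
    have h3 := congrArg Complex.im hg
    simp at h2 h3
    have h4 : ((g 1 : ℝ) + g 2) * z.re = 0 := by linarith
    have h5 : (g 1 : ℝ) + g 2 = 0 := (mul_eq_zero.mp h4).resolve_right hre
    have h6 : (g 2 : ℝ) = - g 1 := by linarith
    rw [h6] at h3
    have h7 : (g 0 : ℝ) * Real.pi + 2 * g 1 * z.im = 0 := by linarith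
    have h8 : g 1 = 0 := by
      by_contra hne
      apply him
      refine ⟨-g 0 / (2 * g 1), ?_⟩
      have hne' : (g 1 : ℝ) ≠ 0 := by exact_mod_cast hne
      have := Real.pi_ne_zero
      push_cast
      field_simp
      linarith
    have h9 : g 0 = 0 := by
      rw [h8] at h7
      have : (g 0 : ℝ) * Real.pi = 0 := by simpa using h7
      exact_mod_cast (mul_eq_zero.mp this).resolve_right Real.pi_ne_zero
    have h10 : g 2 = 0 := by
      rw [h8] at h6
      simpa using h6
    intro i
    fin_cases i
    · exact h9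
    · exact h8
    · exact h10
  have h2 := indep_QB (l := ![Real.pi * Complex.I, z, (starRingEnd ℂ) z]) (by
    intro i
    fin_cases i
    · change IsAlgebraic ℚ (Complex.exp (Real.pi * Complex.I))
      rw [Complex.exp_pi_mul_I]
      exact isAlgebraic_one.neg
    · exact hz
    · change IsAlgebraic ℚ (Complex.exp ((starRingEnd ℂ) z))
      rw [Complex.exp_conj]
      exact hz.algHom (Complex.conjAe.toAlgHom.restrictScalars ℚ)) h1
  rw [Fintype.linearIndependent_iff] at h2 ⊢
  intro g hg
  let I' : QB := ⟨Complex.I, mem_QB.mpr Pool.Agent.H340R2.LW.isAlgebraic_I⟩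
  have hII : I' * I' = -1 := Subtype.ext Complex.I_mul_I
  have h3 := h2 ![-I' * g 0, g 1, g 2] (by
    rw [Fin.sum_univ_three] at hg ⊢
    simp only [Matrix.cons_val_zero, Matrix.cons_val_one, Matrix.cons_val, Algebra.smul_def,
      map_mul, map_neg] at hg ⊢
    have e1 : algebraMap QB ℂ I' = Complex.I := rfl
    rw [e1]
    have hp := pi_ne
    have h4 : (-Complex.I * algebraMap QB ℂ (g 0)) * (Real.pi * Complex.I) +
        algebraMap QB ℂ (g 1) * z + algebraMap QB ℂ (g 2) * (starRingEnd ℂ) z =
        Real.pi * (algebraMap QB ℂ (g 0) * 1 + algebraMap QB ℂ (g 1) * (z / Real.pi) +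
          algebraMap QB ℂ (g 2) * ((starRingEnd ℂ) z / Real.pi)) := by
      field_simp
      linear_combination (-algebraMap QB ℂ (g 0) * Real.pi) * Complex.I_mul_I
    rw [h4, hg, mul_zero])
  have h5 : g 0 = 0 := by
    have h6 := h3 0
    simp only [Matrix.cons_val_zero] at h6
    have h7 : I' * (-I' * g 0) = g 0 := by linear_combination (-g 0) * hII
    rw [← h7, h6, mul_zero]
  intro i
  fin_cases i
  · exact h5
  · exact h3 1
  · exact h3 2

/-- **Main result.**

(1) `1 / (π - a)` is not in `𝒫₁` for all algebraic numbers `a` which are not real, and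
(2) for all algebraic numbers `a` with at most one exception.

(3) Let `z` be a logarithm of an algebraic number with `Re z ≠ 0` and irrational `Im z / π`. Then
`z / π` is not in `𝒫₁`.

(4) There is a subspace `W` of `𝒫₁` of dimension at most two such that `y / π` is not in `𝒫₁` for all `y`
in `𝒫₁` outside of `W`.

(5) For each `D ≥ 1` there is a subspace `W` of `𝒫₁` of dimension at most `8 D - 4` such that `R(π) y` is
not in `𝒫₁` for all `y` in `𝒫₁` outside of `W` and all rational functions `R` of degree at most `D` with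
algebraic coefficients and transcendental `R(π)`.

(6) For each `D ≥ 1` the numbers `R(π)` in `𝒫₁`, `R` as in (5), are contained in a space of dimension at
most `4 D - 1`.

(7) `𝒫₁` has infinite dimension, and it contains `π`. -/
theorem result :
    (∀ a : ℂ, IsAlgebraic ℚ a → a.im ≠ 0 → (((Real.pi : ℝ) : ℂ) - a)⁻¹ ∉ periods1) ∧
    {a : ℂ | IsAlgebraic ℚ a ∧ (((Real.pi : ℝ) : ℂ) - a)⁻¹ ∈ periods1}.encard ≤ 1 ∧
    (∀ z : ℂ, IsAlgebraic ℚ (Complex.exp z) → z.re ≠ 0 → Irrational (z.im / Real.pi) →
      z / (Real.pi : ℝ) ∉ periods1) ∧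
    (∃ W : Submodule (algebraicClosure ℚ ℂ) ℂ, W ≤ periods1 ∧
      Module.Finite (algebraicClosure ℚ ℂ) W ∧ finrank (algebraicClosure ℚ ℂ) W ≤ 2 ∧
      ∀ y ∈ periods1, y ∉ W → y / (Real.pi : ℝ) ∉ periods1) ∧
    (∀ D : ℕ, 1 ≤ D → ∃ W : Submodule (algebraicClosure ℚ ℂ) ℂ, W ≤ periods1 ∧
      Module.Finite (algebraicClosure ℚ ℂ) W ∧ finrank (algebraicClosure ℚ ℂ) W ≤ 8 * D - 4 ∧
      ∀ y ∈ periods1, y ∉ W → ∀ x ∈ ratVals ![((Real.pi : ℝ) : ℂ)] D, Transcendental ℚ x →
        x * y ∉ periods1) ∧
    (∀ D : ℕ, 1 ≤ D → ∃ W : Submodule (algebraicClosure ℚ ℂ) ℂ,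
      Module.Finite (algebraicClosure ℚ ℂ) W ∧ finrank (algebraicClosure ℚ ℂ) W ≤ 4 * D - 1 ∧
      ∀ x ∈ ratVals ![((Real.pi : ℝ) : ℂ)] D, x ∈ periods1 → x ∈ W) ∧
    ¬ Module.Finite (algebraicClosure ℚ ℂ) periods1 ∧ ((Real.pi : ℝ) : ℂ) ∈ periods1 := by
  refine ⟨fun a ha him h => ?_, ?_, fun z hz hre him h => ?_, ?_, fun D hD => ?_, fun D hD => ?_,
    periods1_infinite, pi_mem⟩
  · have h1 := periods1_le h
    have h2 := conj_mem h1
    rw [map_inv₀, map_sub, Complex.conj_ofReal] at h2
    have h3 := few_poles' pi_tr pi_mem_Lt ha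
      (ha.algHom (Complex.conjAe.toAlgHom.restrictScalars ℚ)) h1 h2
    have h4 := congrArg Complex.im h3
    change a.im = ((starRingEnd ℂ) a).im at h4
    rw [Complex.conj_im] at h4
    exact him (by linarith)
  · rw [Set.encard_le_one_iff]
    intro a b ha hb
    exact few_poles' pi_tr pi_mem_Lt ha.1 hb.1 (periods1_le ha.2) (periods1_le hb.2)
  · have h1 := periods1_le h
    have h2 := conj_mem h1
    rw [map_div₀, Complex.conj_ofReal] at h2
    have hp := pi_ne
    have := mult_two pi_tr _ (indep_log hz hre him) (by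
      intro i
      fin_cases i
      · exact Lt_one
      · exact h1
      · exact h2) (by
      intro i
      fin_cases i
      · change (Real.pi : ℂ) * 1 ∈ Lt
        rw [mul_one]; exact pi_mem_Lt
      · change (Real.pi : ℂ) * (z / Real.pi) ∈ Lt
        rw [mul_div_cancel₀ _ hp]; exact Lt_log hz
      · change (Real.pi : ℂ) * ((starRingEnd ℂ) z / Real.pi) ∈ Lt
        rw [mul_div_cancel₀ _ hp]
        exact conj_mem (Lt_log hz))
    omega
  · obtain ⟨W, hf, hW, hS, hWS⟩ := exists_space (k := QB)
      {y : ℂ | y ∈ periods1 ∧ y / (Real.pi : ℝ) ∈ periods1} 2 (fun m l hl hS => by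
        have hp := pi_ne
        refine mult_two pi_tr (fun i => l i / (Real.pi : ℝ)) ?_
          (fun i => periods1_le (hS i).2) (fun i => by
            rw [mul_div_cancel₀ _ hp]
            exact periods1_le (hS i).1)
        have h1 := hl.map' (LinearMap.mulRight QB (((Real.pi : ℝ) : ℂ)⁻¹)) (by
          rw [LinearMap.ker_eq_bot]
          exact mul_left_injective₀ (inv_ne_zero hp))
        exact h1)
    refine ⟨W, hWS.trans (Submodule.span_le.mpr fun y hy => hy.1), hf, hW, ?_⟩
    intro y hy hyW h
    exact hyW (hS ⟨hy, h⟩)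
  · obtain ⟨W, hf, hW, hS, hWS⟩ := exists_space (k := QB)
      {y : ℂ | y ∈ periods1 ∧ ∃ x ∈ ratVals ![((Real.pi : ℝ) : ℂ)] D, Transcendental ℚ x ∧
        x * y ∈ periods1}
      (8 * D - 4) (fun m l hl hS => by
        have := mult_bound ![((Real.pi : ℝ) : ℂ)] hD l hl (fun i => periods1_le (hS i).1)
          (fun i => by
            obtain ⟨x, hx, hx', hx''⟩ := (hS i).2
            exact ⟨x, hx, hx', periods1_le hx''⟩)
        rw [pow_one, pow_one] at this
        omega)
    refine ⟨W, hWS.trans (Submodule.span_le.mpr fun y hy => hy.1), hf, hW, ?_⟩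
    intro y hy hyW x hx hx' hxy
    exact hyW (hS ⟨hy, x, hx, hx', hxy⟩)
  · obtain ⟨W, hf, hW, hS, -⟩ := exists_space_one (k := QB)
      {x : ℂ | x ∈ ratVals ![((Real.pi : ℝ) : ℂ)] D ∧ x ∈ periods1} (4 * D - 2)
      (fun m l hl hS => by
        have := values_bound ![((Real.pi : ℝ) : ℂ)] hD l hl (fun i => periods1_le (hS i).2)
          (fun i => (hS i).1)
        rw [pow_one, pow_one] at this
        exact this)
    exact ⟨W, hf, hW.trans (by omega), fun x hx hx' => hS ⟨hx, hx'⟩⟩

end Pool.Agent.Results.MP_725b61_nt.InverseOfPi
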