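import Pool.Agent.R958.PN

/-!
# `e`, `1 / π`, Euler's constant and the polynomials in the periods of the curves of a family near a given point

Polynomials with algebraic coefficients in the periods of the algebraic forms on a variety over the algebraic numbers are
periods in the sense of Kontsevich and Zagier. Is one of the numbers `e`, `1 / π`, `γ` of this kind? Let `K` be a number
field and consider a family with symplectic monodromy (for instance the products of the hyperelliptic curves) over an open
subset `U` of `ℂ ^ X`. For every `τ > 0` and all `ξ` in `U` outside a set of Hausdorff dimension at most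
`2 [K : ℚ] (|X| - 1) / τ` this does not happen (with polynomials of degree at most `k` and coefficients of height at most
`T ^ k`, and in another way than on the whole torsor of the period matrices) at the `K`-rational points of height at most
`T` at distance at most `C T ^ (-τ)` from `ξ`, if `T` is large.

The definitions (`Pool.Agent.Y890.SM`, `Pool.Agent.Y890.MV`, `Pool.Agent.Y120`, `Pool.Agent.R349.PC`):
* `SympFam X n` : the families; `F.P i x` the matrices of periods, `F.Q i` and `F.J i` the polarizations;
* `F.torsor x` : the pairs `(Y, μ)`, `μ ≠ 0`, with `Y i * Q i(x) * (Y i)ᵀ = μ ^ w i J i` for all `i`; it contains the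
  matrices of the periods and `2 π i`;
* `pol io c Y` : the polynomial with coefficients `c l` of degree at most `k` in each entry of the matrices `Y i`;
* `Bd k T x` : all conjugates of the integer `x` of `K` are at most `T ^ k`;
* `Good F k K io T z x` : for all integers `q`, `c l` of `K` with conjugates at most `T ^ k`: if `q z` is the value at the
  periods at `x` of the polynomial with coefficients `c`, then it is its value at all `Y` with `(Y, 2 π i)` in the torsor;
  if `z ≠ 0` then `z` is not `1 / q` times a value at the periods of a polynomial all of whose monomials have odd degree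
  (for instance a linear form); `1 / π` is not `1 / q` times the value of any polynomial; and if `z` is transcendental
  over `ℚ(π)` then `z` satisfies no equation of degree at most `k` over the ring of the values of the polynomials at the
  periods, unless all coefficients are `0`;
* `Y120.HtLe K T x` : `x` is the quotient of two integers of `K` with all conjugates at most `T`;
* `Y890.HE.Conf n`, `Y890.HE.pm n e` : the branch points `e i r`, `r ≤ n i`, with increasing real parts, and the matrices
  of the periods of `x ^ j dx / y` on `y² = ∏ (x - e i r)`.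
-/

set_option autoImplicit false

namespace Pool.Agent.Results.MP_725b61_nt.NearEveryPoint

open Pool.Agent Pool.Agent.Y890.MV Pool.Agent.Y890.SM Pool.Agent.R349.PC

/-- the coordinates of `s` are elements of `K` of height at most `T` at distance at most `r` from those of `ξ` -/
def Near {X K : Type} [Field K] [NumberField K] (io : K →+* ℂ) (T r : ℝ) (ξ : X → ℂ) (s : X → K) : Prop :=
  ∀ j, Y120.HtLe K T (s j) ∧ ‖ξ j - io (s j)‖ ≤ r

/-- Let `F` be a family with symplectic monodromy over an open subset `U` of `ℂ ^ X`, `K` a number field with an embedding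
`io` in `ℂ` and `Z` a countable set of complex numbers (for instance all numbers which can be defined in some countable
language, among them `e` and Euler's constant).
(1) For every `τ > 0` there is a set `E` of Hausdorff dimension at most `2 [K : ℚ] (|X| - 1) / τ` such that for all `ξ` in
`U` outside `E`, all `z` in `Z`, all `k` and `C` and all large `T` the points with coordinates in `K` of height at most `T`
at distance at most `C T ^ (-τ)` from `ξ` are good for `z`.
(2) If `|X| = 1`, then there is one set `E` of Hausdorff dimension zero with this property for all `τ > 0`.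
(3) The period matrices of all products of hyperelliptic curves `y² = ∏ (x - e i r)`, `r ≤ n i`, `n i` even, are such a
family. -/
theorem result :
    (∀ (X : Type) [Fintype X] [DecidableEq X] [Nonempty X] (ι : Type) [Fintype ι] [DecidableEq ι] (n : ι → ℕ)
      (F : SympFam X n) (K : Type) [Field K] [NumberField K] (io : K →+* ℂ) (Z : Set ℂ), Z.Countable →
      (∀ x ∈ F.U, ((fun i => F.P i x), tpi) ∈ F.torsor x) ∧
      (∀ τ : ℝ, 0 < τ → ∃ E : Set (X → ℂ),
        dimH E ≤ ENNReal.ofReal (2 * (Module.finrank ℚ K : ℝ) * ((Fintype.card X : ℝ) - 1) / τ) ∧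
        ∀ ξ ∈ F.U, ξ ∉ E → ∀ z ∈ Z, ∀ (k : ℕ) (C : ℝ), ∃ T₁ : ℝ, ∀ T : ℝ, T₁ ≤ T → ∀ s : X → K,
          Near io T (C * T ^ (-τ)) ξ s → Good F k K io T z (fun j => io (s j))) ∧
      (Fintype.card X = 1 → ∃ E : Set (X → ℂ), dimH E = 0 ∧
        ∀ ξ ∈ F.U, ξ ∉ E → ∀ z ∈ Z, ∀ (k : ℕ) (τ C : ℝ), 0 < τ → ∃ T₁ : ℝ, ∀ T : ℝ, T₁ ≤ T → ∀ s : X → K,
          Near io T (C * T ^ (-τ)) ξ s → Good F k K io T z (fun j => io (s j)))) ∧
    ∀ (ι : Type) [Fintype ι] [DecidableEq ι] (n : ι → ℕ), (∀ i, Even (n i)) →
      ∃ F : SympFam (Σ i, Fin (n i + 1)) n, F.U = Y890.HE.Conf n ∧ (∀ i, F.w i = 1) ∧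
        ∀ i e, F.P i e = Y890.HE.pm n e i := by
  refine ⟨fun X _ _ _ ι _ _ n F K _ _ io Z hZ => ⟨fun _ hx => F.mem hx, fun τ hτ => ?_, fun hX => ?_⟩,
    fun _ _ _ n hn => ⟨hyp n hn, rfl, fun _ => rfl, fun _ _ => rfl⟩⟩
  · obtain ⟨E, hE, h⟩ := (R958.PN.near F K io Z hZ).1 τ hτ
    refine ⟨E, hE, fun ξ hξ hξE z hz k C => ?_⟩
    obtain ⟨T₁, hT₁⟩ := h ξ hξ hξE z hz k C
    exact ⟨T₁, fun T hT s hs => (hT₁ T hT s hs).2⟩
  · obtain ⟨E, hE, h⟩ := (R958.PN.near F K io Z hZ).2 hX
    refine ⟨E, hE, fun ξ hξ hξE z hz k τ C hτ => ?_⟩
    obtain ⟨T₁, hT₁⟩ := h ξ hξ hξE z hz k τ C hτ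
    exact ⟨T₁, fun T hT s hs => (hT₁ T hT s hs).2⟩

end Pool.Agent.Results.MP_725b61_nt.NearEveryPoint
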