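import Pool.Agent.R349.PerConst

/-!
# `e`, `1 / π`, Euler's constant and the polynomials in the periods of the curves of a family: small balls

Polynomials with algebraic coefficients in the periods of the algebraic forms on a variety over the algebraic numbers are
periods in the sense of Kontsevich and Zagier. Is one of the numbers `e`, `1 / π`, `γ` of this kind? For families with
symplectic monodromy (for instance the hyperelliptic curves) we show that in each ball of radius `T ^ (-η)`, for every
`η > 0`, the points of height at most `T` of the base for which this happens (with polynomials of degree at most `k` and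
coefficients of height at most `T ^ k`, and in another way than on the whole torsor of the period matrices) lie on a
number of hypersurfaces, of a degree, which do not depend on `T`, the ball, the number field and the number.

The definitions (`Pool.Agent.Y890.SM`, `Pool.Agent.Y890.MV`, `Pool.Agent.Y124`, `Pool.Agent.Y120`, `Pool.Agent.R349.PC`):
* `SympFam X n` : the families; `F.P i x` the matrices of periods, `F.Q i` and `F.J i` the polarizations;
* `F.torsor x` : the pairs `(Y, μ)`, `μ ≠ 0`, with `Y i * Q i(x) * (Y i)ᵀ = μ ^ w i J i` for all `i`; it contains the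
  matrices of the periods and `2 π i`;
* `pol io c Y` : the polynomial with coefficients `c l` of degree at most `k` in each entry of the matrices `Y i`;
* `Bd k T x` : all conjugates of the integer `x` of `K` are at most `T ^ k`;
* `Good F k K io T z x` : for all integers `q`, `c l` of `K` with conjugates at most `T ^ k`: if `q z` is the value at the
  periods at `x` of the polynomial with coefficients `c`, then it is its value at all `Y` with `(Y, 2 π i)` in the torsor;
  if `z ≠ 0` then `z` is not `1 / q` times a value at the periods of a polynomial all of whose monomials have odd degree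
  (for instance a linear form); `1 / π` is not `1 / q` times the value of any polynomial; and if `z` is transcendental
  over `ℚ(π)` then `z` satisfies no equation of degree at most `k` over the ring of the values of the polynomials at the
  periods, unless all coefficients are `0`;
* `InnerM U k` : the points of norm at most `k` at distance at least `1 / k` from the complement of `U`;
* `Cov D m S` : `S` is covered by at most `m` hypersurfaces of degree at most `D`;
* `Y890.HE.Conf n`, `Y890.HE.pm n e` : the branch points `e i r`, `r ≤ n i`, with increasing real parts, and the matrices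
  of the periods of `x ^ j dx / y` on `y² = ∏ (x - e i r)`.
-/

set_option autoImplicit false

namespace Pool.Agent.Results.MP_725b61_nt.PeriodsInSmallBalls

open Pool.Agent Pool.Agent.Y890.MV Pool.Agent.Y890.SM Pool.Agent.R349.PC

/-- (1) Let `F` be a family with symplectic monodromy over an open subset of `ℂ ^ X`. For all `k` and `η > 0` there are
`C` and `T₀` such that for all number fields `K` of degree at most `k`, embedded in `ℂ`, all `T ≥ T₀`, all points `t₀` of
`ℂ ^ X` and all complex numbers `z` (for instance `e` and Euler's constant): the points over `K` of height at most `T` at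
distance at most `T ^ (-η)` from `t₀` which are not good for `z` lie on at most `C` hypersurfaces of degree at most `C`;
hence for all finite subsets `B j` of `K` at most `C ∑_j ∏_{i ≠ j} |B i|` of them have coordinates in the sets `B j`, and
at most `C` if there is one parameter.
(2) The period matrices of all products of hyperelliptic curves `y² = ∏ (x - e i r)`, `r ≤ n i`, `n i` even, are such a
family. -/
theorem result :
    (∀ (X : Type) [Fintype X] [DecidableEq X] [Nonempty X] (ι : Type) [Fintype ι] [DecidableEq ι] (n : ι → ℕ)
      (F : SympFam X n),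
      (∀ x ∈ F.U, ((fun i => F.P i x), tpi) ∈ F.torsor x) ∧
      ∀ (k : ℕ) (η : ℝ), 0 < η → ∃ (C : ℕ) (T₀ : ℝ), ∀ (K : Type) [Field K] [NumberField K],
        Module.finrank ℚ K ≤ k → ∀ (io : K →+* ℂ) (z : ℂ) (T : ℝ), T₀ ≤ T → ∀ t₀ : X → ℂ,
          Y124.Cov C C {t | ‖t - t₀‖ ≤ T ^ (-η) ∧ ∃ e : X → K, (∀ j, Y120.HtLe K T (e j)) ∧
            (t = fun j => io (e j)) ∧ t ∈ InnerM F.U k ∧ ¬ Good F k K io T z t} ∧
          ∀ (B : X → Finset K) (E : Finset (X → K)), (∀ e ∈ E, (∀ j, e j ∈ B j) ∧ (∀ j, Y120.HtLe K T (e j)) ∧
              (fun j => io (e j)) ∈ InnerM F.U k ∧ ‖(fun j => io (e j)) - t₀‖ ≤ T ^ (-η) ∧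
              ¬ Good F k K io T z (fun j => io (e j))) →
            E.card ≤ C * ∑ j, ∏ i ∈ Finset.univ.erase j, (B i).card) ∧
    ∀ (ι : Type) [Fintype ι] [DecidableEq ι] (n : ι → ℕ), (∀ i, Even (n i)) →
      ∃ F : SympFam (Σ i, Fin (n i + 1)) n, F.U = Y890.HE.Conf n ∧ (∀ i, F.w i = 1) ∧
        ∀ i e, F.P i e = Y890.HE.pm n e i := by
  refine ⟨fun X _ _ _ ι _ _ n F => ⟨fun _ hx => F.mem hx, fun k η hη => ?_⟩,
    fun _ _ _ n hn => ⟨hyp n hn, rfl, fun _ => rfl, fun _ _ => rfl⟩⟩
  obtain ⟨C, T₀, H⟩ := ballPC F k η hη
  refine ⟨C + C * C, T₀, fun K _ _ hK io z T hT t₀ => ?_⟩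
  have h2 := H K hK io z T hT t₀
  refine ⟨h2.mono (by omega) (by omega) (Set.Subset.refl _), fun B E hE => ?_⟩
  refine (R349.MVB.cov_prod io B _ h2 E fun e he => ?_).trans (Nat.mul_le_mul_right _ (by omega))
  obtain ⟨h3, h4, h5, h6, h7⟩ := hE e he
  exact ⟨h3, h6, e, h4, rfl, h5, h7⟩

end Pool.Agent.Results.MP_725b61_nt.PeriodsInSmallBalls
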